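import Pool.Agent.Helper60.SB.Defs4
import Pool.Agent.Helper5.SB.U8
import Pool.Agent.Helper22.SB.U12
import Pool.Agent.Helper34.SB.U10

/-!
Module M8: representation of the classes `W` by smooth dyadic blocks.
The modules M2, M3, M5, M6, M7 are taken as hypotheses.
-/

open Finset MeasureTheory
open scoped ENNReal Real

namespace Pool.Agent.Helper24.SB

open Pool.Agent.Helper60.SB

theorem m8_cco_yb {e : ℕ} (M : ℕ → ℤ → ℂ) (m : ℕ)
    (h : (Fin (e + 1) → ℕ) → (Fin (e + 1) → ℝ) → ℂ) (k : Qs (e + 1) m) :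
    cco (yb M m h) k = ∑ s ∈ shps (e + 1) m,
      (∏ j, M (s j) ((k : Fin (e + 1) → ℤ) j)) * fc (h s) k := by
  unfold cco yb
  simp only [Bool.false_eq_true, if_false, if_true]
  exact Complex.re_add_im _

theorem m8_mem_Qs {d m : ℕ} {k : Fin d → ℤ} :
    k ∈ Qs d m ↔ ∃ i, i ≤ d ∧ ∑ j, lev k j = m + i := by
  unfold Qs
  rw [Finset.mem_biUnion]
  constructor
  · rintro ⟨i, hi, hk⟩
    exact ⟨i, Nat.lt_succ_iff.1 (Finset.mem_range.1 hi), (Pool.Agent.Helper60.SB.mem_Qm _ _ _).1 hk⟩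
  · rintro ⟨i, hi, hk⟩
    exact ⟨i, Finset.mem_range.2 (Nat.lt_succ_iff.2 hi), (Pool.Agent.Helper60.SB.mem_Qm _ _ _).2 hk⟩

theorem m8_mem_shps {d m : ℕ} {s : Fin d → ℕ} : s ∈ shps d m ↔ ∑ j, s j = m := by
  unfold shps
  rw [Finset.mem_filter, Fintype.mem_piFinset]
  constructor
  · exact fun h => h.2
  · intro h
    refine ⟨fun j => ?_, h⟩
    rw [Finset.mem_range]
    have := Finset.single_le_sum (f := s) (fun _ _ => Nat.zero_le _) (Finset.mem_univ j)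
    omega

theorem m8_prod_zero {e m : ℕ} {M : ℕ → ℤ → ℂ}
    (hM : ∀ s k, (k.natAbs.size ≠ s ∧ k.natAbs.size ≠ s + 1) → M s k = 0)
    {k : Fin (e + 1) → ℤ} (hk : k ∉ Qs (e + 1) m) {s : Fin (e + 1) → ℕ}
    (hs : s ∈ shps (e + 1) m) : ∏ j, M (s j) (k j) = 0 := by
  by_contra hne0
  apply hk
  have hne := Finset.prod_ne_zero_iff.1 hne0
  have h1 : ∀ j, lev k j = s j ∨ lev k j = s j + 1 := by
    intro j
    by_contra hcon
    push Not at hcon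
    exact hne j (Finset.mem_univ j) (hM _ _ hcon)
  rw [m8_mem_shps] at hs
  rw [m8_mem_Qs]
  have h2 : ∀ j, s j ≤ lev k j := fun j => by rcases h1 j with h | h <;> omega
  have h3 : ∀ j, lev k j ≤ s j + 1 := fun j => by rcases h1 j with h | h <;> omega
  have h4 : ∑ j, s j ≤ ∑ j, lev k j := Finset.sum_le_sum fun j _ => h2 j
  have h5 : ∑ j, lev k j ≤ ∑ j, (s j + 1) := Finset.sum_le_sum fun j _ => h3 j
  rw [Finset.sum_add_distrib] at h5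
  simp only [Finset.sum_const, Finset.card_univ, Fintype.card_fin, smul_eq_mul, mul_one] at h5
  refine ⟨∑ j, lev k j - m, by omega, by omega⟩

open scoped Classical in
theorem m8_cco_if {e m : ℕ} {M : ℕ → ℤ → ℂ}
    (hM : ∀ s k, (k.natAbs.size ≠ s ∧ k.natAbs.size ≠ s + 1) → M s k = 0)
    (h : (Fin (e + 1) → ℕ) → (Fin (e + 1) → ℝ) → ℂ) (k : Fin (e + 1) → ℤ) :
    (if hk : k ∈ Qs (e + 1) m then cco (yb M m h) ⟨k, hk⟩ else 0) =
      ∑ s ∈ shps (e + 1) m, (∏ j, M (s j) (k j)) * fc (h s) k := by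
  by_cases hk : k ∈ Qs (e + 1) m
  · rw [dif_pos hk, m8_cco_yb]
  · rw [dif_neg hk]
    symm
    apply Finset.sum_eq_zero
    intro s hs
    rw [m8_prod_zero hM hk hs, zero_mul]

theorem m8_abs_le_lev {d : ℕ} (k : Fin d → ℤ) (j : Fin d) : |k j| ≤ 2 ^ lev k j := by
  have h := Pool.Agent.Helper60.SB.natAbs_lt_lev k j
  have h2 : ((k j).natAbs : ℤ) < 2 ^ lev k j := by exact_mod_cast h
  rw [Int.natCast_natAbs] at h2
  exact h2.le

theorem m8_sum_prod_eta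
    (sum_eta : ∀ (M : ℕ) (k : ℤ), |k| ≤ 2 ^ M → ∑ s ∈ range (M + 1), eta s k = 1)
    (eta_eq_zero : ∀ (s : ℕ) (k : ℤ), k.natAbs.size ≠ s → k.natAbs.size ≠ s + 1 → eta s k = 0)
    {e : ℕ} (k : Fin (e + 1) → ℤ) :
    ∑ m ∈ range (∑ j, lev k j + 1), ∑ s ∈ shps (e + 1) m, ∏ j, eta (s j) (k j) = 1 := by
  set L := ∑ j, lev k j with hL
  have hle : ∀ j, lev k j ≤ L := fun j =>
    Finset.single_le_sum (f := fun j => lev k j) (fun _ _ => Nat.zero_le _) (Finset.mem_univ j)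
  have h1 : ∀ j, ∑ s ∈ range (L + 1), eta s (k j) = 1 := by
    intro j
    apply sum_eta
    refine (m8_abs_le_lev k j).trans ?_
    exact pow_le_pow_right₀ (by norm_num) (hle j)
  have h2 : ∑ s ∈ Fintype.piFinset (fun _ : Fin (e + 1) => range (L + 1)),
      ∏ j, eta (s j) (k j) = 1 := by
    have h := Finset.prod_univ_sum (fun _ : Fin (e + 1) => range (L + 1))
      (fun j s => eta s (k j))
    rw [← h]
    exact Finset.prod_eq_one fun j _ => h1 j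
  have h3 : ∑ s ∈ (Fintype.piFinset (fun _ : Fin (e + 1) => range (L + 1))).filter
      (fun s => ∑ j, s j ≤ L), ∏ j, eta (s j) (k j) = 1 := by
    rw [← h2]
    apply Finset.sum_subset (Finset.filter_subset _ _)
    intro s hs hs2
    by_contra hne0
    have hne := Finset.prod_ne_zero_iff.1 hne0
    apply hs2
    rw [Finset.mem_filter]
    refine ⟨hs, Finset.sum_le_sum fun j _ => ?_⟩
    by_contra hcon
    exact hne j (Finset.mem_univ j) (eta_eq_zero _ _ (by unfold lev at hcon; omega)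
      (by unfold lev at hcon; omega))
  rw [← h3, ← Finset.sum_fiberwise_of_maps_to (t := range (L + 1))
    (g := fun s : Fin (e + 1) → ℕ => ∑ j, s j)]
  · refine Finset.sum_congr rfl fun m hm => ?_
    rw [Finset.mem_range] at hm
    refine Finset.sum_congr ?_ fun _ _ => rfl
    ext s
    rw [m8_mem_shps, Finset.mem_filter, Finset.mem_filter, Fintype.mem_piFinset]
    constructor
    · intro h
      refine ⟨⟨fun j => ?_, by omega⟩, h⟩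
      rw [Finset.mem_range]
      have := Finset.single_le_sum (f := s) (fun _ _ => Nat.zero_le _) (Finset.mem_univ j)
      omega
    · exact fun h => h.2
  · intro s hs
    rw [Finset.mem_filter] at hs
    rw [Finset.mem_range]
    omega

theorem m8_prod_mW {e m : ℕ} (r : ℝ) (k : Fin (e + 1) → ℤ) {s : Fin (e + 1) → ℕ}
    (hs : s ∈ shps (e + 1) m) :
    (((2 : ℝ) ^ (-(r * m)) : ℝ) : ℂ) * ∏ j, mW r (s j) (k j) =
      ((∏ j, eta (s j) (k j) : ℝ) : ℂ) * ∏ j, bmul r r (k j) := by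
  rw [m8_mem_shps] at hs
  unfold mW
  rw [Finset.prod_mul_distrib, ← mul_assoc]
  congr 1
  rw [← Complex.ofReal_prod, ← Complex.ofReal_mul, Finset.prod_mul_distrib]
  congr 1
  have h1 : ∏ j, (2 : ℝ) ^ (r * (s j : ℝ)) = (2 : ℝ) ^ (r * m) := by
    rw [← Real.rpow_sum_of_pos (by norm_num : (0:ℝ) < 2), ← Finset.mul_sum, ← hs]
    push_cast
    rfl
  rw [h1, ← mul_assoc, ← Real.rpow_add (by norm_num)]
  simp

theorem m8_int_sq_le {d : ℕ} (p : ℝ) (hp : 2 < p) (φ : (Fin d → ℝ) → ℂ)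
    (h1 : MemLp φ (ENNReal.ofReal p) (tor d)) (h2 : eLpNorm φ (ENNReal.ofReal p) (tor d) ≤ 1) :
    MemLp φ 2 (tor d) ∧ ∫ x, ‖φ x‖ ^ 2 ∂(tor d) ≤ 1 := by
  have := Pool.Agent.Helper5.SB.isProb_tor d
  have hp2 : (2 : ℝ≥0∞) ≤ ENNReal.ofReal p := by
    rw [show (2 : ℝ≥0∞) = ENNReal.ofReal 2 by simp]
    exact ENNReal.ofReal_le_ofReal hp.le
  have h3 : MemLp φ 2 (tor d) := h1.mono_exponent hp2
  refine ⟨h3, ?_⟩
  have h4 : eLpNorm φ 2 (tor d) ≤ 1 :=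
    (eLpNorm_le_eLpNorm_of_exponent_le hp2 h1.1).trans h2
  have h5 := h3.eLpNorm_eq_integral_rpow_norm (by norm_num) (by norm_num)
  rw [h5] at h4
  have h6 : (∫ x, ‖φ x‖ ^ (2 : ℝ) ∂(tor d)) ^ (2 : ℝ)⁻¹ ≤ 1 := by
    have := ENNReal.ofReal_le_one.1 h4
    simpa using this
  have h7 : 0 ≤ ∫ x, ‖φ x‖ ^ (2 : ℝ) ∂(tor d) := integral_nonneg fun x => by positivity
  have h8 : ∫ x, ‖φ x‖ ^ (2 : ℝ) ∂(tor d) ≤ 1 := by
    by_contra hcon
    push Not at hcon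
    exact absurd h6 (not_le.2 (Real.one_lt_rpow hcon (by norm_num)))
  simpa using h8

theorem rep_W
    (sum_eta : ∀ (M : ℕ) (k : ℤ), |k| ≤ 2 ^ M → ∑ s ∈ range (M + 1), eta s k = 1)
    (eta_eq_zero : ∀ (s : ℕ) (k : ℤ), k.natAbs.size ≠ s → k.natAbs.size ≠ s + 1 → eta s k = 0)
    (mulFam_W : ∀ r : ℝ, 0 < r → ∃ C ≥ 1, MulFam (mW r) C)
    (yb_sup : ∀ (e : ℕ) (M : ℕ → ℤ → ℂ) (C : ℝ), MulFam M C →
      ∃ C' ≥ 1, ∀ (m : ℕ) (h : (Fin (e + 1) → ℕ) → (Fin (e + 1) → ℝ) → ℂ) (A : ℝ), 0 ≤ A →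
        (∀ s, AEStronglyMeasurable (h s) (tor (e + 1))) → (∀ s x, ‖h s x‖ ≤ A) →
        ∀ x, ‖TT (Qs (e + 1) m) (yb M m h) x‖ ≤ C' * A * ((m : ℝ) + 1) ^ e)
    (yb_l2_joint : ∀ (e : ℕ) (M : ℕ → ℤ → ℂ) (C : ℝ), MulFam M C →
      ∃ C' ≥ 1, ∀ (L : ℕ) (φ : (Fin (e + 1) → ℝ) → ℂ), MemLp φ 2 (tor (e + 1)) →
        ∑ m ∈ range L, ∑ i, (yb M m (fun _ => φ) i) ^ 2 ≤ C' * ∫ x, ‖φ x‖ ^ 2 ∂(tor (e + 1)))
    (trunc_Lp : ∀ {d : ℕ} (p : ℝ), 2 < p → ∀ h : (Fin d → ℝ) → ℂ,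
      MemLp h (ENNReal.ofReal p) (tor d) → eLpNorm h (ENNReal.ofReal p) (tor d) ≤ 1 →
      ∀ A : ℝ, 1 ≤ A →
      ∃ g₁ g₂ : (Fin d → ℝ) → ℂ, (∀ x, h x = g₁ x + g₂ x) ∧ MemLp g₁ 2 (tor d) ∧
        MemLp g₂ 2 (tor d) ∧ (∀ x, ‖g₁ x‖ ≤ A) ∧ ∫ x, ‖g₂ x‖ ^ 2 ∂(tor d) ≤ A ^ (2 - p))
    (e : ℕ) (r p : ℝ) (hr : 0 < r) (hp : 2 < p) :
    ∃ C ≥ 1, ∀ f ∈ Wclass (e + 1) ℂ r (ENNReal.ofReal p),
      ∃ y : (m : ℕ) → (Qs (e + 1) m × Bool → ℝ), SRep r p 0 C f y ∧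
        ∀ L : ℕ, ∑ m ∈ range L, ∑ i, (y m i) ^ 2 ≤ C ^ 2 := by
  obtain ⟨C0, hC0, hM⟩ := mulFam_W r hr
  obtain ⟨C1, hC1, hsup⟩ := yb_sup e (mW r) C0 hM
  obtain ⟨C2, hC2, hl2⟩ := yb_l2_joint e (mW r) C0 hM
  have := Pool.Agent.Helper5.SB.isProb_tor (e + 1)
  have hCC : C2 ≤ (C1 + C2) ^ 2 := by nlinarith
  refine ⟨C1 + C2, by linarith, ?_⟩
  rintro f ⟨φ, hφ1, hφ2, rfl⟩
  obtain ⟨hφ3, hφ4⟩ := m8_int_sq_le p hp φ hφ1 hφ2
  have hp1 : (1 : ℝ≥0∞) ≤ ENNReal.ofReal p := by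
    rw [show (1 : ℝ≥0∞) = ENNReal.ofReal 1 by simp]
    exact ENNReal.ofReal_le_ofReal (by linarith)
  have hφi : Integrable φ (tor (e + 1)) := hφ1.integrable hp1
  obtain ⟨hfi, hfc⟩ := Pool.Agent.Helper22.SB.fc_conv (e + 1) r hr φ hφi
  have hjoint : ∀ (L : ℕ), ∑ m ∈ range L, ∑ i, (yb (e := e) (mW r) m (fun _ => φ) i) ^ 2 ≤
      (C1 + C2) ^ 2 := by
    intro L
    refine (hl2 L φ hφ3).trans ?_
    calc C2 * ∫ x, ‖φ x‖ ^ 2 ∂(tor (e + 1)) ≤ C2 * 1 := by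
          apply mul_le_mul_of_nonneg_left hφ4 (by linarith)
      _ ≤ (C1 + C2) ^ 2 := by linarith
  have hsingle : ∀ (g : (Fin (e + 1) → ℝ) → ℂ), MemLp g 2 (tor (e + 1)) → ∀ m : ℕ,
      ∑ i, (yb (e := e) (mW r) m (fun _ => g) i) ^ 2 ≤ C2 * ∫ x, ‖g x‖ ^ 2 ∂(tor (e + 1)) := by
    intro g hg m
    refine le_trans ?_ (hl2 (m + 1) g hg)
    exact Finset.single_le_sum (f := fun m => ∑ i, (yb (e := e) (mW r) m (fun _ => g) i) ^ 2)
      (fun m _ => Finset.sum_nonneg fun i _ => sq_nonneg _) (Finset.mem_range.2 (Nat.lt_succ_self m))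
  refine ⟨fun m => yb (mW r) m (fun _ => φ), ⟨hfi, ?_, ?_, ?_⟩, hjoint⟩
  · intro k
    refine (hfc k).trans ?_
    have e1 : ∀ m ∈ range (∑ j, lev k j + 1), (((2 : ℝ) ^ (-(r * (m : ℝ))) : ℝ) : ℂ) *
        (if h : k ∈ Qs (e + 1) m then cco (yb (mW r) m (fun _ => φ)) ⟨k, h⟩ else 0) =
        ((∏ j, bmul r r (k j)) * fc φ k) *
          ((∑ s ∈ shps (e + 1) m, ∏ j, eta (s j) (k j) : ℝ) : ℂ) := by
      intro m _
      rw [m8_cco_if hM.1, Finset.mul_sum, Complex.ofReal_sum, Finset.mul_sum]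
      refine Finset.sum_congr rfl fun s hs => ?_
      rw [← mul_assoc, m8_prod_mW r k hs]
      ring
    rw [Finset.sum_congr rfl e1, ← Finset.mul_sum, ← Complex.ofReal_sum,
      m8_sum_prod_eta sum_eta eta_eq_zero k]
    simp
  · intro m
    rw [Real.rpow_zero, mul_one]
    refine (hsingle φ hφ3 m).trans ?_
    calc C2 * ∫ x, ‖φ x‖ ^ 2 ∂(tor (e + 1)) ≤ C2 * 1 := by
          apply mul_le_mul_of_nonneg_left hφ4 (by linarith)
      _ ≤ (C1 + C2) ^ 2 := by linarith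
  · intro m A hA
    obtain ⟨g₁, g₂, h12, hg1, hg2, hgA, hgi⟩ := trunc_Lp p hp φ hφ1 hφ2 A hA
    refine ⟨yb (mW r) m (fun _ => g₁), yb (mW r) m (fun _ => g₂), ?_, ?_, ?_⟩
    · apply Pool.Agent.Helper5.SB.eq_of_cco
      intro k
      have hadd : ∀ (y z : Qs (e + 1) m × Bool → ℝ), cco (y + z) k = cco y k + cco z k := by
        intro y z
        unfold cco
        simp only [Pi.add_apply]
        push_cast
        ring
      rw [hadd, m8_cco_yb, m8_cco_yb, m8_cco_yb, ← Finset.sum_add_distrib]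
      refine Finset.sum_congr rfl fun s _ => ?_
      have hfcadd : fc φ k = fc g₁ k + fc g₂ k := by
        have h := Pool.Agent.Helper5.SB.fc_comb g₁ g₂ (hg1.integrable (by norm_num))
          (hg2.integrable (by norm_num)) 1 1 k
        have hφeq : φ = fun x => 1 * g₁ x + 1 * g₂ x := by
          ext x
          rw [h12 x]; ring
        rw [hφeq, h]; ring
      rw [hfcadd]; ring
    · intro x
      refine (hsup m (fun _ => g₁) A (by linarith) (fun _ => hg1.1) (fun _ x => hgA x) x).trans ?_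
      have hA0 : 0 ≤ A := by linarith
      have : 0 ≤ A * ((m : ℝ) + 1) ^ e := by positivity
      nlinarith
    · rw [Real.rpow_zero, mul_one]
      refine (hsingle g₂ hg2 m).trans ?_
      have hAp : 0 ≤ A ^ (2 - p) := by positivity
      calc C2 * ∫ x, ‖g₂ x‖ ^ 2 ∂(tor (e + 1)) ≤ C2 * A ^ (2 - p) :=
            mul_le_mul_of_nonneg_left hgi (by linarith)
        _ ≤ (C1 + C2) ^ 2 * A ^ (2 - p) := mul_le_mul_of_nonneg_right hCC hAp

end Pool.Agent.Helper24.SB
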